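import Pool.Agent.Work.MP_a2bf38_gt.Al.TowDefs

/-!
# Composition of towers (helper20)
-/

open MvPolynomial

namespace Pool.Agent.KRFAl

namespace Compose

theorem eval_pull' {m k : ℕ} (π : (Fin m → ℂ) →ₗ[ℂ] (Fin k → ℂ)) (x : Fin m → ℂ)
    (P : MvPolynomial (Fin k) ℂ) : eval x (pull π P) = eval (π x) P := by
  have h1 : ∀ i, ∑ j, π (Pi.single j 1) i * x j = π x i := by
    intro i
    have h2 : x = ∑ j, x j • (Pi.single j (1 : ℂ) : Fin m → ℂ) := by
      funext a
      simp [Finset.sum_apply, Pi.single_apply]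
    conv_rhs => rw [h2, map_sum]
    rw [Finset.sum_apply]
    refine Finset.sum_congr rfl fun j _ => ?_
    rw [map_smul, Pi.smul_apply, smul_eq_mul, mul_comm]
  have h3 : (eval x).comp (pull π : MvPolynomial (Fin k) ℂ →+* MvPolynomial (Fin m) ℂ) =
      eval (π x) := by
    refine MvPolynomial.ringHom_ext (fun a => ?_) fun i => ?_
    · simp [pull]
    · simp [pull, map_sum, h1]
  exact congrArg (fun φ => φ P) h3

theorem pull_comp' {m k l : ℕ} (π : (Fin m → ℂ) →ₗ[ℂ] (Fin k → ℂ))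
    (π' : (Fin k → ℂ) →ₗ[ℂ] (Fin l → ℂ)) (P : MvPolynomial (Fin l) ℂ) :
    pull (π' ∘ₗ π) P = pull π (pull π' P) := by
  refine MvPolynomial.funext fun x => ?_
  rw [eval_pull', eval_pull', eval_pull']
  rfl

theorem pull_id' {m : ℕ} (P : MvPolynomial (Fin m) ℂ) : pull LinearMap.id P = P := by
  refine MvPolynomial.funext fun x => ?_
  rw [eval_pull']
  rfl

theorem zr_iff {m l : ℕ} (π : (Fin m → ℂ) →ₗ[ℂ] (Fin l → ℂ)) (J : Ideal (MvPolynomial (Fin m) ℂ))
    (J' : Ideal (MvPolynomial (Fin l) ℂ)) (x : Fin m → ℂ) :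
    Zr (J ⊔ J'.map (pull π)) x ↔ Zr J x ∧ Zr J' (π x) := by
  have hz : ∀ {m : ℕ} (I : Ideal (MvPolynomial (Fin m) ℂ)) (x : Fin m → ℂ),
      Zr I x ↔ I ≤ RingHom.ker (eval x) := fun I x => Iff.rfl
  rw [hz, hz, hz, sup_le_iff, Ideal.map_le_iff_le_comap]
  refine and_congr_right fun _ => ?_
  constructor
  · intro h p hp
    have h1 := h hp
    rw [Ideal.mem_comap, RingHom.mem_ker, eval_pull'] at h1
    exact h1
  · intro h p hp
    rw [Ideal.mem_comap, RingHom.mem_ker, eval_pull']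
    exact h hp

end Compose

open Compose

theorem exists_compose {m l k : ℕ} {C C' : ℝ} {r r' : ℕ} (hC : 0 ≤ C) (T : Tow m l C r)
    (T' : Tow l k C' r') : ∃ T'' : Tow m k (C * C') (r * r'),
      T''.J = T.J ⊔ T'.J.map (pull T.π) ∧ T''.π = T'.π ∘ₗ T.π := by
  classical
  have hcomap : ∀ Q : Ideal (MvPolynomial (Fin m) ℂ),
      (Q.comap (pull T.π)).comap (pull T'.π) = Q.comap (pull (T'.π ∘ₗ T.π)) := by
    intro Q
    ext p
    simp only [Ideal.mem_comap, pull_comp']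
  refine ⟨{ π := T'.π ∘ₗ T.π, J := T.J ⊔ T'.J.map (pull T.π), en_le := ?_, bound := ?_,
            cone := ?_, count := ?_, int := ?_, gd := ?_ }, rfl, rfl⟩
  · exact fun x => (T'.en_le _).trans (T.en_le x)
  · intro x hx
    rw [zr_iff] at hx
    refine (T.bound x hx.1).trans ?_
    rw [mul_assoc]
    exact mul_le_mul_of_nonneg_left (T'.bound _ hx.2) hC
  · intro x c hx
    rw [zr_iff] at hx ⊢
    refine ⟨T.cone x c hx.1, ?_⟩
    rw [map_smul]
    exact T'.cone _ c hx.2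
  · intro y A hA
    have hA' : ∀ x ∈ A, T'.π (T.π x) = y ∧ Zr T.J x ∧ Zr T'.J (T.π x) := fun x hx =>
      ⟨(hA x hx).1, (zr_iff _ _ _ _).1 (hA x hx).2⟩
    have h1 : (A.image T.π).card ≤ r' := by
      refine T'.count y _ fun b hb => ?_
      obtain ⟨x, hx, rfl⟩ := Finset.mem_image.1 hb
      exact ⟨(hA' x hx).1, (hA' x hx).2.2⟩
    have h2 : A.card ≤ r * (A.image T.π).card := by
      refine Finset.card_le_mul_card_image A r fun b _ => ?_
      refine T.count b _ fun x hx => ?_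
      rw [Finset.mem_filter] at hx
      exact ⟨hx.2, (hA' x hx.1).2.1⟩
    exact h2.trans (Nat.mul_le_mul_left r h1)
  · -- integrality
    set J : Ideal (MvPolynomial (Fin m) ℂ) := T.J ⊔ T'.J.map (pull T.π) with hJ
    have h0 : ∀ a ∈ T'.J, ((Ideal.Quotient.mk J).comp
        (pull T.π : MvPolynomial (Fin l) ℂ →+* MvPolynomial (Fin m) ℂ)) a = 0 := by
      intro a ha
      rw [RingHom.comp_apply, Ideal.Quotient.eq_zero_iff_mem]
      exact Ideal.mem_sup_right (Ideal.mem_map_of_mem _ ha)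
    set g : (MvPolynomial (Fin l) ℂ ⧸ T'.J) →+* (MvPolynomial (Fin m) ℂ ⧸ J) :=
      Ideal.Quotient.lift T'.J _ h0 with hg
    have hgc : g.comp (Ideal.Quotient.mk T'.J) = (Ideal.Quotient.mk J).comp
        (pull T.π : MvPolynomial (Fin l) ℂ →+* MvPolynomial (Fin m) ℂ) := rfl
    set f : MvPolynomial (Fin k) ℂ →+* (MvPolynomial (Fin l) ℂ ⧸ T'.J) :=
      (Ideal.Quotient.mk T'.J).comp
        (pull T'.π : MvPolynomial (Fin k) ℂ →+* MvPolynomial (Fin l) ℂ) with hf
    have hfi : f.IsIntegral := by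
      intro a
      obtain ⟨p, rfl⟩ := Ideal.Quotient.mk_surjective a
      exact T'.int p
    have hgi : g.IsIntegral := by
      intro a
      obtain ⟨p, rfl⟩ := Ideal.Quotient.mk_surjective a
      obtain ⟨q, hq, hq0⟩ := T.int p
      refine ⟨q.map (Ideal.Quotient.mk T'.J), hq.map _, ?_⟩
      rw [Polynomial.eval₂_map, hgc]
      have h1 : (Ideal.Quotient.factor (show T.J ≤ J from le_sup_left)).comp
          ((Ideal.Quotient.mk T.J).comp
          (pull T.π : MvPolynomial (Fin l) ℂ →+* MvPolynomial (Fin m) ℂ)) =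
          (Ideal.Quotient.mk J).comp
          (pull T.π : MvPolynomial (Fin l) ℂ →+* MvPolynomial (Fin m) ℂ) := rfl
      have h2 := congrArg (Ideal.Quotient.factor (show T.J ≤ J from le_sup_left)) hq0
      rw [Polynomial.hom_eval₂, map_zero, h1] at h2
      exact h2
    intro p
    have h3 := RingHom.IsIntegral.trans f g hfi hgi (Ideal.Quotient.mk J p)
    have h4 : g.comp f = (Ideal.Quotient.mk J).comp
        (pull (T'.π ∘ₗ T.π) : MvPolynomial (Fin k) ℂ →+* MvPolynomial (Fin m) ℂ) := by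
      refine RingHom.ext fun a => ?_
      change Ideal.Quotient.mk J (pull T.π (pull T'.π a)) =
        Ideal.Quotient.mk J (pull (T'.π ∘ₗ T.π) a)
      rw [pull_comp']
    rw [h4] at h3
    exact h3
  · intro Q p hQ hp hJQ hpQ
    rw [sup_le_iff, Ideal.map_le_iff_le_comap] at hJQ
    rw [← hcomap] at hpQ
    have hQ' : (Q.comap (pull T.π)).IsPrime := Ideal.IsPrime.comap _
    obtain ⟨q', hq', hJ', hq'Q, hq'p⟩ := T'.gd _ p hQ' hp hJQ.2 hpQ
    obtain ⟨q, hq, hJ, hqQ, hqq'⟩ := T.gd Q q' hQ hq' hJQ.1 hq'Q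
    refine ⟨q, hq, ?_, hqQ, ?_⟩
    · rw [sup_le_iff, Ideal.map_le_iff_le_comap, hqq']
      exact ⟨hJ, hJ'⟩
    · rw [← hcomap, hqq', hq'p]

theorem exists_trivial (m : ℕ) : ∃ T : Tow m m 1 1, T.J = ⊥ ∧ T.π = LinearMap.id := by
  have hcomap : ∀ Q : Ideal (MvPolynomial (Fin m) ℂ), Q.comap (pull LinearMap.id) = Q := by
    intro Q
    ext p
    rw [Ideal.mem_comap, pull_id']
  refine ⟨{ π := LinearMap.id, J := ⊥, en_le := fun x => le_rfl, bound := ?_, cone := ?_,
            count := ?_, int := ?_, gd := ?_ }, rfl, rfl⟩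
  · intro x _
    rw [one_mul]
    rfl
  · intro x c _ p hp
    rw [(Submodule.mem_bot _).1 hp, map_zero]
  · intro y A hA
    refine Finset.card_le_one.2 fun a ha b hb => ?_
    have h1 : a = y := (hA a ha).1
    have h2 : b = y := (hA b hb).1
    rw [h1, h2]
  · intro p
    have h1 : Ideal.Quotient.mk (⊥ : Ideal (MvPolynomial (Fin m) ℂ)) p =
        ((Ideal.Quotient.mk (⊥ : Ideal (MvPolynomial (Fin m) ℂ))).comp
          (pull (LinearMap.id : (Fin m → ℂ) →ₗ[ℂ] (Fin m → ℂ)) :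
            MvPolynomial (Fin m) ℂ →+* MvPolynomial (Fin m) ℂ)) p := by
      change _ = Ideal.Quotient.mk _ (pull LinearMap.id p)
      rw [pull_id']
    rw [h1]
    exact RingHom.isIntegralElem_map _
  · intro Q p hQ hp _ hpQ
    rw [hcomap] at hpQ
    exact ⟨p, hp, bot_le, hpQ, hcomap p⟩

end Pool.Agent.KRFAl
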