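import Pool.Agent.Work.MP_a2bf38_gt.Z.NatDefs

/-!
# Cones and their curves
-/

open scoped ContDiff ENNReal ComplexOrder Topology
open Set Filter Pool.Agent.ToricKRF Pool.Agent.ToricKRF.G Pool.Agent.KRFS Pool.Agent.KRFF
  Pool.Agent.KRFZ

namespace Pool.Agent.KRFAl

/-- `∑ |v i|^2` -/
noncomputable def nr {ι : Type} [Fintype ι] (v : ι → ℂ) : ℝ := ∑ i, ‖v i‖ ^ 2

/-- `V` is the set of the zeros of homogeneous polynomials of degree at most `d`. -/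
def IsCone {L : ℕ} (d : ℕ) (V : Set (Fin (L + 1) → ℂ)) : Prop :=
  ∃ S : Set (MvPolynomial (Fin (L + 1)) ℂ), (∀ Q ∈ S, ∃ k ≤ d, Q.IsHomogeneous k) ∧
    V = {y | ∀ Q ∈ S, MvPolynomial.eval y Q = 0}

/-- An unordered `D`-tuple `Z s` of points of the cone `V`, depending holomorphically on `s ∈ ℂ`.
Its image under a linear map `h` is a line `a₁ + s a₂`. -/
structure IsAlgCurve {L : ℕ} (V : Set (Fin (L + 1) → ℂ)) (R α : ℝ) {D : ℕ}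
    (Z : ℂ → Fin D → Fin (L + 1) → ℂ) : Prop where
  mem : ∀ s i, Z s i ∈ V
  proj : ∃ (k : ℕ) (h : (Fin (L + 1) → ℂ) →ₗ[ℂ] (Fin k → ℂ)) (a₁ a₂ : Fin k → ℂ),
    (∀ v, nr (h v) ≤ nr v) ∧ nr a₁ = 1 ∧ nr a₂ = 1 ∧ ∑ i, starRingEnd ℂ (a₁ i) * a₂ i = 0 ∧
      ∀ s i, h (Z s i) = a₁ + s • a₂ ∧ nr (Z s i) ≤ R * nr (h (Z s i))
  cont : ∀ s, ∀ ε > 0, ∀ᶠ s' in 𝓝 s, ∃ σ : Equiv.Perm (Fin D), ∀ i, ‖Z s' (σ i) - Z s i‖ ≤ ε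
  holder : ∀ s s', ‖s'‖ ≤ 1 → ‖s - s'‖ ≤ 1 → ∃ σ : Equiv.Perm (Fin D), ∀ i,
    ‖Z s (σ i) - Z s' i‖ ≤ R * ‖s - s'‖ ^ α
  sect : ∃ E : Set ℂ, (∀ s, ∃ r > 0, ∀ s' ∈ E, s' ≠ s → r ≤ ‖s' - s‖) ∧ ∀ s ∉ E,
    ∃ (r : ℝ) (G : Fin D → ℂ → Fin (L + 1) → ℂ), 0 < r ∧
      (∀ i, DifferentiableOn ℂ (G i) (Metric.ball s r)) ∧
      ∀ s' ∈ Metric.ball s r, ∃ σ : Equiv.Perm (Fin D), ∀ i, Z s' (σ i) = G i s'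

/-- The interface between the algebra and the geometry. -/
def HasAlgCurves (L d : ℕ) : Prop := ∃ (D₀ : ℕ) (R α : ℝ), 1 ≤ R ∧ 0 < α ∧
  ∀ V : Set (Fin (L + 1) → ℂ), IsCone d V →
    ∃ B : Finset (Fin (L + 1) → ℂ), B.card ≤ D₀ ∧ (∀ b ∈ B, b ∈ V ∧ b ≠ 0) ∧
      ∀ x ∈ V, x ≠ 0 → (∃ b ∈ B, ∃ a : ℂ, x = a • b) ∨
        ∃ (D : ℕ) (Z : ℂ → Fin D → Fin (L + 1) → ℂ) (s₀ s₁ : ℂ), D ≤ D₀ ∧ ‖s₀‖ ≤ 1 ∧ ‖s₁‖ ≤ 1 ∧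
          IsAlgCurve V R α Z ∧ (∀ i, ∃ b ∈ B, ∃ a : ℂ, Z s₀ i = a • b) ∧ ∃ i, ∃ a : ℂ, x = a • Z s₁ i

/-- `HasCurves` for the fibres over the set `A` -/
def HasCurvesOn {M Z : Type} [MetricSpace M] {n : ℕ} {κ : Type}
    (e : κ → OpenPartialHomeomorph M (Cn n)) (f : M → Z) (ψ : κ → ℝ × Cn n → ℝ) (A : Set Z) :
    Prop := ∃ (D₀ : ℕ) (C α : ℝ), 0 ≤ C ∧ 0 < α ∧ ∀ z ∈ A, ∀ l,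
  1 ≤ l → ∃ B : Finset M, B.card ≤ D₀ ∧ (∀ p ∈ B, f p = z) ∧ ∀ p, f p = z →
    ∃ (D : ℕ) (γ : ℂ → Fin D → M) (ρ : M → ℝ) (s₀ s₁ : ℂ), D ≤ D₀ ∧ ‖s₀‖ ≤ 1 ∧ ‖s₁‖ ≤ 1 ∧
      (∀ i, γ s₀ i ∈ B) ∧ (∃ i, γ s₁ i = p) ∧ IsCurve e ψ (f ⁻¹' {z}) C l α γ ρ s₀ s₁

end Pool.Agent.KRFAl
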