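import Pool.Agent.Work.MP_a2bf38_gt.Al.Defs
import Pool.Agent.Work.MP_a2bf38_gt.K.HB

/-!
# Curves in the fibres: from local to global
-/

open scoped ContDiff ENNReal ComplexOrder Topology
open Set Filter Pool.Agent.ToricKRF Pool.Agent.ToricKRF.G Pool.Agent.KRFS Pool.Agent.KRFF
  Pool.Agent.KRFZ Pool.Agent.KRFG

namespace Pool.Agent.KRFAl

namespace Gl

theorem contDiff_sq : ContDiff ℝ ∞ fun s : ℂ => 1 + (s.re * s.re + s.im * s.im) :=
  contDiff_const.add ((Complex.reCLM.contDiff.mul Complex.reCLM.contDiff).add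
    (Complex.imCLM.contDiff.mul Complex.imCLM.contDiff))

theorem log_eq : (fun s : ℂ => Real.log (1 + ‖s‖ ^ 2)) =
    fun s : ℂ => Real.log (1 + (s.re * s.re + s.im * s.im)) := by
  funext s
  rw [← Complex.normSq_eq_norm_sq, Complex.normSq_apply]

theorem sq_pos (s : ℂ) : 0 < 1 + (s.re * s.re + s.im * s.im) := by
  nlinarith [mul_self_nonneg s.re, mul_self_nonneg s.im]

theorem D_sq (v s : ℂ) : D v (fun s : ℂ => 1 + (s.re * s.re + s.im * s.im)) s =
    2 * (s.re * v.re + s.im * v.im) := by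
  have hre : HasFDerivAt (fun s : ℂ => s.re) Complex.reCLM s := Complex.reCLM.hasFDerivAt
  have him : HasFDerivAt (fun s : ℂ => s.im) Complex.imCLM s := Complex.imCLM.hasFDerivAt
  have h := ((hre.fun_mul hre).fun_add (him.fun_mul him)).const_add 1
  unfold D
  rw [h.fderiv]
  simp
  ring

theorem D_D_sq (v w s : ℂ) : D v (D w fun s : ℂ => 1 + (s.re * s.re + s.im * s.im)) s =
    2 * (v.re * w.re + v.im * w.im) := by
  have h0 : (D w fun s : ℂ => 1 + (s.re * s.re + s.im * s.im)) =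
      fun s => 2 * (s.re * w.re + s.im * w.im) := funext fun s => D_sq w s
  have hre : HasFDerivAt (fun s : ℂ => s.re) Complex.reCLM s := Complex.reCLM.hasFDerivAt
  have him : HasFDerivAt (fun s : ℂ => s.im) Complex.imCLM s := Complex.imCLM.hasFDerivAt
  have h := ((hre.mul_const w.re).fun_add (him.mul_const w.im)).const_mul 2
  rw [h0]
  unfold D
  rw [h.fderiv]
  simp
  ring

theorem lapC_log_nonneg (s : ℂ) : 0 ≤ lapC (fun s : ℂ => Real.log (1 + ‖s‖ ^ 2)) s := by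
  rw [log_eq]
  have hc : ContDiffAt ℝ 2 (fun s : ℂ => 1 + (s.re * s.re + s.im * s.im)) s :=
    contDiff_sq.contDiffAt.of_le two_le_infty
  have h0 := sq_pos s
  unfold lapC
  rw [LC.D_D_log _ _ hc h0.ne', LC.D_D_log _ _ hc h0.ne', D_D_sq, D_D_sq, D_sq, D_sq]
  simp only [Complex.one_re, Complex.one_im, Complex.I_re, Complex.I_im]
  set A : ℝ := 1 + (s.re * s.re + s.im * s.im) with hA
  have h1 : 2 * (1 * 1 + 0 * 0) / A - 2 * (s.re * 1 + s.im * 0) * (2 * (s.re * 1 + s.im * 0)) / A ^ 2 +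
      (2 * (0 * 0 + 1 * 1) / A - 2 * (s.re * 0 + s.im * 1) * (2 * (s.re * 0 + s.im * 1)) / A ^ 2) =
      4 / A ^ 2 := by
    field_simp
    rw [hA]
    ring
  rw [h1]
  positivity

theorem contDiffAt_log (s : ℂ) : ContDiffAt ℝ 2 (fun s : ℂ => Real.log (1 + ‖s‖ ^ 2)) s := by
  rw [log_eq]
  exact (contDiff_sq.contDiffAt.of_le two_le_infty).log (sq_pos s).ne'

end Gl

/-- larger constants -/
theorem isCurve_mono {M : Type} [MetricSpace M] {n : ℕ} {κ : Type}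
    {e : κ → OpenPartialHomeomorph M (Cn n)} {ψ : κ → ℝ × Cn n → ℝ} {A : Set M} {C C' l α α' : ℝ}
    {d : ℕ} {γ : ℂ → Fin d → M} {ρ : M → ℝ} {s₀ s₁ : ℂ} (h : IsCurve e ψ A C l α γ ρ s₀ s₁)
    (hC : C ≤ C') (hl : 0 ≤ l) (hα' : 0 < α') (hα : α' ≤ α) :
    IsCurve e ψ A C' l α' γ ρ s₀ s₁ where
  mem := h.mem
  cont := h.cont
  holder := by
    intro s₂ hs₂ s hs
    obtain ⟨σ, hσ⟩ := h.holder s₂ hs₂ s hs
    refine ⟨σ, fun i => (hσ i).trans ?_⟩
    refine mul_le_mul (Real.exp_le_exp.2 (mul_le_mul_of_nonneg_right hC hl)) ?_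
      (by positivity) (Real.exp_nonneg _)
    exact Real.rpow_le_rpow_of_exponent_ge' (norm_nonneg _) hs hα'.le hα
  rho_cont := h.rho_cont
  rho_bound := fun p hp => (h.rho_bound p hp).trans (mul_le_mul_of_nonneg_right hC hl)
  sect := by
    obtain ⟨E, hE, hs⟩ := h.sect
    refine ⟨E, hE, fun s hsE => ?_⟩
    obtain ⟨r, c, g, hr, h1, h2, h3, h4, h5⟩ := hs s hsE
    refine ⟨r, c, g, hr, h1, h2, h3, h4, fun i s' hs' => (h5 i s' hs').trans ?_⟩
    have hρ : ContDiffAt ℝ 2 (fun s' => ρ ((e (c i)).symm (g i s'))) s' :=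
      ((h4 i).contDiffAt (Metric.isOpen_ball.mem_nhds hs')).of_le two_le_infty
    have hL := Gl.contDiffAt_log s'
    rw [HB.lapC_add (contDiffAt_const.mul hL) hρ, HB.lapC_add (contDiffAt_const.mul hL) hρ,
      HB.lapC_const_mul C hL, HB.lapC_const_mul C' hL]
    have := mul_le_mul_of_nonneg_right hC (Gl.lapC_log_nonneg s')
    linarith

section

variable {M Z : Type} [MetricSpace M] {n : ℕ} {κ : Type}
  {e : κ → OpenPartialHomeomorph M (Cn n)} {f : M → Z} {ψ : κ → ℝ × Cn n → ℝ}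

theorem HasCurvesOn.mono {A B : Set Z} (h : HasCurvesOn e f ψ B) (hAB : A ⊆ B) :
    HasCurvesOn e f ψ A := by
  obtain ⟨D₀, C, α, hC, hα, h⟩ := h
  exact ⟨D₀, C, α, hC, hα, fun z hz => h z (hAB hz)⟩

theorem HasCurvesOn.empty : HasCurvesOn e f ψ ∅ :=
  ⟨0, 0, 1, le_rfl, one_pos, fun _ hz => hz.elim⟩

theorem HasCurvesOn.union {A B : Set Z} (hA : HasCurvesOn e f ψ A) (hB : HasCurvesOn e f ψ B) :
    HasCurvesOn e f ψ (A ∪ B) := by
  obtain ⟨D₁, C₁, α₁, hC₁, hα₁, h₁⟩ := hA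
  obtain ⟨D₂, C₂, α₂, hC₂, hα₂, h₂⟩ := hB
  refine ⟨max D₁ D₂, max C₁ C₂, min α₁ α₂, le_max_of_le_left hC₁, lt_min hα₁ hα₂,
    fun z hz l hl => ?_⟩
  rcases hz with hz | hz
  · obtain ⟨P, hP, hPz, hp⟩ := h₁ z hz l hl
    refine ⟨P, hP.trans (le_max_left _ _), hPz, fun p hpz => ?_⟩
    obtain ⟨D, γ, ρ, s₀, s₁, h1, h2, h3, h4, h5, h6⟩ := hp p hpz
    exact ⟨D, γ, ρ, s₀, s₁, h1.trans (le_max_left _ _), h2, h3, h4, h5,
      isCurve_mono h6 (le_max_left _ _) (by linarith) (lt_min hα₁ hα₂) (min_le_left _ _)⟩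
  · obtain ⟨P, hP, hPz, hp⟩ := h₂ z hz l hl
    refine ⟨P, hP.trans (le_max_right _ _), hPz, fun p hpz => ?_⟩
    obtain ⟨D, γ, ρ, s₀, s₁, h1, h2, h3, h4, h5, h6⟩ := hp p hpz
    exact ⟨D, γ, ρ, s₀, s₁, h1.trans (le_max_right _ _), h2, h3, h4, h5,
      isCurve_mono h6 (le_max_right _ _) (by linarith) (lt_min hα₁ hα₂) (min_le_right _ _)⟩

theorem HasCurvesOn.univ (h : HasCurvesOn e f ψ univ) : HasCurves e f ψ := by
  obtain ⟨D₀, C, α, hC, hα, h⟩ := h
  exact ⟨D₀, C, α, hC, hα, fun z l hl => h z (mem_univ z) l hl⟩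

/-- a compact space: it is enough to have the curves over a neighbourhood of every point -/
theorem hasCurves_of_local [TopologicalSpace Z] [CompactSpace Z]
    (h : ∀ w : Z, ∃ A ∈ 𝓝 w, HasCurvesOn e f ψ A) : HasCurves e f ψ := by
  refine HasCurvesOn.univ ?_
  refine isCompact_univ.induction_on (p := fun A => HasCurvesOn e f ψ A) HasCurvesOn.empty
    (fun A B hAB hB => hB.mono hAB) (fun A B hA hB => hA.union hB) fun w _ => ?_
  obtain ⟨A, hA, hc⟩ := h w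
  exact ⟨A, mem_nhdsWithin_of_mem_nhds hA, hc⟩

end

end Pool.Agent.KRFAl
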