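import Pool.Agent.Work.MP_a2bf38_gt.Al.TowDefs

/-!
# Growth implies homogeneous
-/

open MvPolynomial Filter Topology

namespace Pool.Agent.KRFAl

namespace GrowthP

theorem iteratedDeriv_eval (p : Polynomial ℂ) (d : ℕ) :
    iteratedDeriv d (fun t => p.eval t) = fun t => (Polynomial.derivative^[d] p).eval t := by
  induction d with
  | zero => rfl
  | succ d ih =>
    rw [iteratedDeriv_succ, ih]
    funext t
    rw [Polynomial.deriv, Function.iterate_succ_apply']

theorem norm_coeff_le (p : Polynomial ℂ) {K : ℝ} {N : ℕ} (h : ∀ t, ‖p.eval t‖ ≤ K * ‖t‖ ^ N)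
    (d : ℕ) {r : ℝ} (hr : 0 < r) : ‖p.coeff d‖ ≤ K * r ^ N / r ^ d := by
  have h1 := Complex.norm_iteratedDeriv_le_of_forall_mem_sphere_norm_le (f := fun t => p.eval t)
    (c := 0) (R := r) (C := K * r ^ N) d hr
    (Polynomial.differentiable p).diffContOnCl (by
      intro z hz
      have := h z
      rwa [mem_sphere_zero_iff_norm.1 hz] at this)
  rw [iteratedDeriv_eval] at h1
  have h2 : (Polynomial.derivative^[d] p).eval 0 = (d.factorial : ℂ) * p.coeff d := by
    rw [← Polynomial.coeff_zero_eq_eval_zero, Polynomial.coeff_iterate_derivative, zero_add,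
      Nat.descFactorial_self, nsmul_eq_mul]
  simp only [] at h1
  rw [h2, norm_mul, Complex.norm_natCast, mul_div_assoc] at h1
  exact le_of_mul_le_mul_left h1 (by exact_mod_cast Nat.factorial_pos d)

theorem coeff_eq_zero (p : Polynomial ℂ) {K : ℝ} {N : ℕ} (h : ∀ t, ‖p.eval t‖ ≤ K * ‖t‖ ^ N)
    {d : ℕ} (hd : d ≠ N) : p.coeff d = 0 := by
  have key : ∀ e : ℕ, e ≠ 0 → (∀ ρ : ℝ, 0 < ρ → ‖p.coeff d‖ ≤ K * ρ ^ e) → p.coeff d = 0 := by
    intro e he hρ
    have h1 : Tendsto (fun ρ : ℝ => K * ρ ^ e) (𝓝[>] 0) (𝓝 (K * 0 ^ e)) :=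
      ((continuous_const.mul (continuous_pow e)).tendsto 0).mono_left nhdsWithin_le_nhds
    rw [zero_pow he, mul_zero] at h1
    have h2 : ‖p.coeff d‖ ≤ 0 := ge_of_tendsto h1 (by
      filter_upwards [self_mem_nhdsWithin] with ρ hρ'
      exact hρ ρ hρ')
    exact norm_le_zero_iff.1 h2
  rcases lt_or_gt_of_ne hd with hlt | hgt
  · refine key (N - d) (by omega) fun ρ hρ => ?_
    have h1 := norm_coeff_le p h d hρ
    rw [mul_div_assoc, div_eq_mul_inv, ← pow_sub₀ ρ hρ.ne' hlt.le] at h1
    exact h1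
  · refine key (d - N) (by omega) fun ρ hρ => ?_
    have h1 := norm_coeff_le p h d (inv_pos.2 hρ)
    have h2 : K * ρ⁻¹ ^ N / ρ⁻¹ ^ d = K * ρ ^ (d - N) := by
      rw [mul_div_assoc, pow_sub₀ ρ hρ.ne' hgt.le, inv_pow, inv_pow, div_eq_mul_inv, inv_inv,
        mul_comm (ρ ^ N)⁻¹]
    rwa [h2] at h1

theorem eval_smul_of_homogeneous {R σ : Type*} [CommRing R] [Fintype σ] {Q : MvPolynomial σ R}
    {d : ℕ} (hQ : Q.IsHomogeneous d) (t : R) (x : σ → R) :
    eval (t • x) Q = t ^ d * eval x Q := by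
  rw [eval_eq', eval_eq', Finset.mul_sum]
  refine Finset.sum_congr rfl fun s hs => ?_
  have h1 := hQ (mem_support_iff.1 hs)
  rw [Finsupp.weight_apply, Finsupp.sum_fintype] at h1
  · have h2 : ∑ i, s i = d := by simpa using h1
    simp only [Pi.smul_apply, smul_eq_mul, mul_pow, Finset.prod_mul_distrib]
    rw [Finset.prod_pow_eq_pow_sum, h2]
    ring
  · simp

end GrowthP

open GrowthP

theorem isHomogeneous_of_growth {k N : ℕ} {c : MvPolynomial (Fin k) ℂ} {K : ℝ}
    (h : ∀ y, ‖eval y c‖ ≤ K * en y ^ N) : c.IsHomogeneous N := by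
  have hen : ∀ (t : ℂ) (y : Fin k → ℂ), en (t • y) = ‖t‖ * en y := by
    intro t y
    have h1 : ∑ i, ‖(t • y) i‖ ^ 2 = ‖t‖ ^ 2 * ∑ i, ‖y i‖ ^ 2 := by
      rw [Finset.mul_sum]
      refine Finset.sum_congr rfl fun i _ => ?_
      rw [Pi.smul_apply, smul_eq_mul, norm_mul, mul_pow]
    rw [en, h1, Real.sqrt_mul (sq_nonneg _), Real.sqrt_sq (norm_nonneg _), en]
  have hcomp : ∀ d, d ≠ N → homogeneousComponent d c = 0 := by
    intro d hd
    refine MvPolynomial.funext fun y => ?_
    rw [map_zero]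
    set p : Polynomial ℂ := ∑ j ∈ Finset.range (c.totalDegree + 1),
      Polynomial.C (eval y (homogeneousComponent j c)) * Polynomial.X ^ j with hp
    have hev : ∀ t, p.eval t = eval (t • y) c := by
      intro t
      conv_rhs => rw [← sum_homogeneousComponent c]
      rw [hp, Polynomial.eval_finsetSum, map_sum]
      refine Finset.sum_congr rfl fun j _ => ?_
      rw [Polynomial.eval_mul, Polynomial.eval_C, Polynomial.eval_pow, Polynomial.eval_X,
        eval_smul_of_homogeneous (homogeneousComponent_isHomogeneous j c), mul_comm]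
    have h0 : p.coeff d = 0 := by
      refine coeff_eq_zero p (K := K * en y ^ N) (N := N) (fun t => ?_) hd
      rw [hev]
      refine (h _).trans (le_of_eq ?_)
      rw [hen, mul_pow]
      ring
    by_cases hdc : d < c.totalDegree + 1
    · rw [hp, Polynomial.finsetSum_coeff, Finset.sum_eq_single d] at h0
      · simpa using h0
      · intro j _ hj
        rw [Polynomial.coeff_C_mul_X_pow, if_neg (Ne.symm hj)]
      · intro hcon
        exact absurd (Finset.mem_range.2 hdc) hcon
    · rw [homogeneousComponent_eq_zero d c (by omega), map_zero]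
  have hsum := sum_homogeneousComponent c
  by_cases hN : N < c.totalDegree + 1
  · rw [Finset.sum_eq_single N (fun j _ hj => hcomp j hj)
      (fun hcon => absurd (Finset.mem_range.2 hN) hcon)] at hsum
    rw [← hsum]
    exact homogeneousComponent_isHomogeneous N c
  · rw [Finset.sum_eq_zero (fun j hj => hcomp j (by
      have := Finset.mem_range.1 hj
      omega))] at hsum
    rw [← hsum]
    exact isHomogeneous_zero _ _ _

end Pool.Agent.KRFAl
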