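import Pool.Agent.Work.MP_a2bf38_gt.Al.Defs

/-!
# The disc through two lines
-/

open scoped ContDiff ENNReal ComplexOrder Topology
open Set Filter

namespace Pool.Agent.KRFAl

namespace Lines

variable {k : ℕ}

/-- the Hermitian product -/
noncomputable def ip (v w : Fin k → ℂ) : ℂ := ∑ i, starRingEnd ℂ (v i) * w i

theorem ip_self (v : Fin k → ℂ) : ip v v = (nr v : ℂ) := by
  unfold ip nr
  push_cast
  refine Finset.sum_congr rfl fun i _ => ?_
  rw [mul_comm, Complex.mul_conj, Complex.normSq_eq_norm_sq]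
  push_cast
  rfl

theorem ip_conj (v w : Fin k → ℂ) : starRingEnd ℂ (ip v w) = ip w v := by
  unfold ip
  rw [map_sum]
  refine Finset.sum_congr rfl fun i _ => ?_
  rw [map_mul, Complex.conj_conj, mul_comm]

theorem ip_add_right (v w w' : Fin k → ℂ) : ip v (w + w') = ip v w + ip v w' := by
  unfold ip
  rw [← Finset.sum_add_distrib]
  refine Finset.sum_congr rfl fun i _ => ?_
  rw [Pi.add_apply, mul_add]

theorem ip_smul_right (a : ℂ) (v w : Fin k → ℂ) : ip v (a • w) = a * ip v w := by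
  unfold ip
  rw [Finset.mul_sum]
  refine Finset.sum_congr rfl fun i _ => ?_
  rw [Pi.smul_apply, smul_eq_mul]
  ring

theorem ip_add_left (v v' w : Fin k → ℂ) : ip (v + v') w = ip v w + ip v' w := by
  rw [← ip_conj, ip_add_right, map_add, ip_conj, ip_conj]

theorem ip_smul_left (a : ℂ) (v w : Fin k → ℂ) : ip (a • v) w = starRingEnd ℂ a * ip v w := by
  rw [← ip_conj, ip_smul_right, map_mul, ip_conj]

theorem nr_smul (a : ℂ) (v : Fin k → ℂ) : nr (a • v) = ‖a‖ ^ 2 * nr v := by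
  unfold nr
  rw [Finset.mul_sum]
  refine Finset.sum_congr rfl fun i _ => ?_
  rw [Pi.smul_apply, smul_eq_mul, norm_mul, mul_pow]

theorem nr_nonneg (v : Fin k → ℂ) : 0 ≤ nr v := Finset.sum_nonneg fun i _ => by positivity

theorem nr_pos {v : Fin k → ℂ} (hv : v ≠ 0) : 0 < nr v := by
  refine lt_of_le_of_ne (nr_nonneg v) fun h => hv ?_
  have h1 := (Finset.sum_eq_zero_iff_of_nonneg fun i _ => by positivity).1 h.symm
  funext i
  have h2 := h1 i (Finset.mem_univ i)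
  simpa using h2

theorem nr_add (v w : Fin k → ℂ) : nr (v + w) = nr v + nr w + 2 * (ip v w).re := by
  have h1 : ((nr (v + w) : ℝ) : ℂ) = (nr v : ℂ) + (nr w : ℂ) + (ip v w + ip w v) := by
    rw [← ip_self, ← ip_self, ← ip_self, ip_add_right, ip_add_left, ip_add_left]
    ring
  have h2 := congrArg Complex.re h1
  rw [← ip_conj v w] at h2
  simp only [Complex.add_re, Complex.ofReal_re, Complex.conj_re] at h2
  linarith

end Lines

open Lines

/-- `Al/Lines.lean`: two lines in `ℂ^k` and the disc through them -/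
theorem lines {k : ℕ} (v w : Fin k → ℂ) (hv : v ≠ 0) (hw : w ≠ 0) (hvw : ∀ a : ℂ, w ≠ a • v) :
    ∃ (a₁ a₂ : Fin k → ℂ) (s₀ s₁ b₀ b₁ : ℂ), nr a₁ = 1 ∧ nr a₂ = 1 ∧
      ∑ i, starRingEnd ℂ (a₁ i) * a₂ i = 0 ∧ ‖s₀‖ ≤ 1 ∧ ‖s₁‖ ≤ 1 ∧ b₀ ≠ 0 ∧ b₁ ≠ 0 ∧
      a₁ + s₀ • a₂ = b₀ • v ∧ a₁ + s₁ • a₂ = b₁ • w := by
  have hnv := nr_pos hv
  have hnw := nr_pos hw
  obtain ⟨u, hu, hux⟩ := RCLike.exists_norm_eq_mul_self (ip v w)
  set t : ℝ := √(nr v / nr w) with ht
  have ht0 : 0 < t := Real.sqrt_pos.2 (div_pos hnv hnw)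
  have ht2 : t ^ 2 * nr w = nr v := by
    rw [ht, Real.sq_sqrt (div_pos hnv hnw).le]
    field_simp
  set c : ℂ := (t : ℂ) * u with hc
  have hcn : ‖c‖ = t := by
    rw [hc, norm_mul, hu, mul_one, Complex.norm_real, Real.norm_of_nonneg ht0.le]
  have hc0 : c ≠ 0 := by
    rw [← norm_pos_iff, hcn]
    exact ht0
  set w' : Fin k → ℂ := c • w with hw'
  have hnw' : nr w' = nr v := by rw [hw', nr_smul, hcn, ht2]
  have hip : ip v w' = ((t * ‖ip v w‖ : ℝ) : ℂ) := by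
    rw [hw', ip_smul_right, hc, mul_assoc]
    have : u * ip v w = ((‖ip v w‖ : ℝ) : ℂ) := hux.symm
    rw [this]
    push_cast
    rfl
  have hip' : ip w' v = ip v w' := by
    rw [← ip_conj, hip, Complex.conj_ofReal]
  set ρ : ℝ := t * ‖ip v w‖ with hρ
  have hρ0 : 0 ≤ ρ := by positivity
  set m : Fin k → ℂ := v + w' with hm
  set d : Fin k → ℂ := v + (-1 : ℂ) • w' with hd
  have hm0 : m ≠ 0 := fun h => by
    have h1 : w' = (-1 : ℂ) • v := by
      rw [neg_smul, one_smul]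
      exact eq_neg_of_add_eq_zero_right h
    refine hvw (c⁻¹ * (-1)) ?_
    rw [mul_smul, ← h1, hw', smul_smul, inv_mul_cancel₀ hc0, one_smul]
  have hd0 : d ≠ 0 := fun h => by
    have h1 : w' = v := by
      rw [hd, neg_smul, one_smul, ← sub_eq_add_neg, sub_eq_zero] at h
      exact h.symm
    refine hvw c⁻¹ ?_
    rw [← h1, hw', smul_smul, inv_mul_cancel₀ hc0, one_smul]
  have hnm : nr m = 2 * (nr v + ρ) := by
    rw [hm, nr_add, hnw', hip, Complex.ofReal_re]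
    ring
  have hnd : nr d = 2 * (nr v - ρ) := by
    rw [hd, nr_add, nr_smul, hnw', ip_smul_right, hip]
    simp
    ring
  have hmd : ip m d = 0 := by
    rw [hm, hd, ip_add_left, ip_add_right, ip_add_right, ip_smul_right (-1) v w',
      ip_smul_right (-1) w' w', hip', ip_self, ip_self, hnw']
    ring
  have hM := nr_pos hm0
  have hD := nr_pos hd0
  set M : ℝ := √(nr m) with hMdef
  set N : ℝ := √(nr d) with hNdef
  have hM0 : 0 < M := Real.sqrt_pos.2 hM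
  have hN0 : 0 < N := Real.sqrt_pos.2 hD
  have hM2 : M ^ 2 = nr m := Real.sq_sqrt hM.le
  have hN2 : N ^ 2 = nr d := Real.sq_sqrt hD.le
  have hNM : N ≤ M := Real.sqrt_le_sqrt (by rw [hnm, hnd]; linarith)
  have hMc : (M : ℂ) ≠ 0 := by exact_mod_cast hM0.ne'
  have hNc : (N : ℂ) ≠ 0 := by exact_mod_cast hN0.ne'
  have hnrM : ‖((M : ℂ)⁻¹)‖ ^ 2 * nr m = 1 := by
    rw [norm_inv, Complex.norm_real, Real.norm_of_nonneg hM0.le, ← hM2]
    field_simp
  have hnrN : ‖((N : ℂ)⁻¹)‖ ^ 2 * nr d = 1 := by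
    rw [norm_inv, Complex.norm_real, Real.norm_of_nonneg hN0.le, ← hN2]
    field_simp
  have hs : ‖((N / M : ℝ) : ℂ)‖ ≤ 1 := by
    rw [Complex.norm_real, Real.norm_of_nonneg (by positivity), div_le_one hM0]
    exact hNM
  refine ⟨(M : ℂ)⁻¹ • m, (N : ℂ)⁻¹ • d, ((N / M : ℝ) : ℂ), -((N / M : ℝ) : ℂ), 2 * (M : ℂ)⁻¹,
    2 * (M : ℂ)⁻¹ * c, ?_, ?_, ?_, hs, by rw [norm_neg]; exact hs, ?_, ?_, ?_, ?_⟩
  · rw [nr_smul, hnrM]
  · rw [nr_smul, hnrN]
  · have h1 : ip ((M : ℂ)⁻¹ • m) ((N : ℂ)⁻¹ • d) = 0 := by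
      rw [ip_smul_left, ip_smul_right, hmd]
      ring
    exact h1
  · exact mul_ne_zero two_ne_zero (inv_ne_zero hMc)
  · exact mul_ne_zero (mul_ne_zero two_ne_zero (inv_ne_zero hMc)) hc0
  · funext i
    simp only [Pi.add_apply, Pi.smul_apply, smul_eq_mul, hm, hd]
    push_cast
    field_simp
    ring
  · funext i
    simp only [Pi.add_apply, Pi.smul_apply, smul_eq_mul, hm, hd, hw']
    push_cast
    field_simp
    ring

end Pool.Agent.KRFAl
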