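import Pool.Agent.Work.MP_a2bf38_gt.Y.Match

/-!
# Matching of unordered tuples of vectors from the values of finitely many linear forms
-/

open Set Filter Pool.Agent.KRFY

namespace Pool.Agent.KRFAl

/-- `Al/Match.lean` (helper91): unordered tuples of vectors, from the values of finitely many linear
forms `u`; `ev P T` is the value of the polynomial -/
theorem matching (L D : ℕ) : ∃ (U : Finset (Fin (L + 1) → ℂ)) (C α : ℝ), 0 < C ∧ 0 < α ∧
    ∀ (z z' : Fin D → Fin (L + 1) → ℂ) (R δ : ℝ), 1 ≤ R → 0 ≤ δ → δ ≤ 1 → (∀ i, ‖z i‖ ≤ R) →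
      (∀ i, ‖z' i‖ ≤ R) → (∀ u ∈ U, ∀ T : ℂ, ‖T‖ ≤ C * R →
        ‖∏ i, (T - ∑ l, u l * z i l) - ∏ i, (T - ∑ l, u l * z' i l)‖ ≤ δ) →
      ∃ σ : Equiv.Perm (Fin D), ∀ i, ‖z (σ i) - z' i‖ ≤ C * R ^ C * δ ^ α := by
  classical
  obtain ⟨m, C₀, α, hC₀, hα, -, h⟩ := match_tuples D (L + 1)
  refine ⟨(Finset.range ((L + 1) * D.factorial + 1)).image
    (fun k : ℕ => fun l : Fin (L + 1) => (k : ℂ) ^ (l : ℕ)), C₀ + m, α, by positivity, hα, ?_⟩
  intro z z' R δ hR hδ hδ1 hz hz' hU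
  have hm : (0 : ℝ) ≤ m := Nat.cast_nonneg m
  have hR0 : (0 : ℝ) ≤ R := by linarith
  obtain ⟨σ, hσ⟩ := h R δ z z' hR hδ hδ1 (fun i j => (norm_le_pi_norm (z i) j).trans (hz i))
    (fun i j => (norm_le_pi_norm (z' i) j).trans (hz' i)) (by
      intro k hk T hT
      exact hU _ (Finset.mem_image_of_mem _ (Finset.mem_range.2 hk)) T
        (hT.trans (mul_le_mul_of_nonneg_right (by linarith) hR0)))
  refine ⟨σ, fun i => ?_⟩
  have hR1 : R ^ m ≤ R ^ (C₀ + m) := by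
    rw [← Real.rpow_natCast]
    exact Real.rpow_le_rpow_of_exponent_le hR (by linarith)
  refine (pi_norm_le_iff_of_nonneg (by positivity)).2 fun j => ?_
  rw [Pi.sub_apply]
  refine (hσ i j).trans (mul_le_mul_of_nonneg_right ?_ (by positivity))
  exact mul_le_mul (by linarith) hR1 (by positivity) (by positivity)

end Pool.Agent.KRFAl
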