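import Mathlib

/-!
# Immersions in homogeneous coordinates
-/

open scoped ContDiff Topology
open Set Filter

namespace Pool.Agent.KRFAl

/-- an immersion is locally bi-Lipschitz -/
theorem antilip {V E : Type*} [NormedAddCommGroup V] [NormedSpace ℝ V] [FiniteDimensional ℝ V]
    [NormedAddCommGroup E] [NormedSpace ℝ E] {F : V → E} {z₀ : V} (hF : ContDiffAt ℝ 1 F z₀)
    (hinj : ∀ v, fderiv ℝ F z₀ v = 0 → v = 0) :
    ∃ C : ℝ, 0 < C ∧ ∀ᶠ z : V × V in 𝓝 (z₀, z₀), ‖z.1 - z.2‖ ≤ C * ‖F z.1 - F z.2‖ := by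
  obtain ⟨K, hK, hA⟩ := LinearMap.exists_antilipschitzWith (fderiv ℝ F z₀ : V →ₗ[ℝ] E)
    (LinearMap.ker_eq_bot'.2 hinj)
  have hK' : (0 : ℝ) < K := hK
  have hs : HasStrictFDerivAt F (fderiv ℝ F z₀) z₀ := hF.hasStrictFDerivAt (by norm_num)
  have h1 := (hs.isLittleO.def (c := 1 / (2 * K)) (by positivity))
  refine ⟨2 * K, by positivity, ?_⟩
  filter_upwards [h1] with z hz
  have h2 : ‖z.1 - z.2‖ ≤ K * ‖fderiv ℝ F z₀ (z.1 - z.2)‖ := by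
    have h3 := hA.le_mul_dist (z.1 - z.2) 0
    simpa [dist_eq_norm] using h3
  have h4 : ‖fderiv ℝ F z₀ (z.1 - z.2)‖ ≤
      ‖F z.1 - F z.2‖ + 1 / (2 * K) * ‖z.1 - z.2‖ := by
    have h5 : fderiv ℝ F z₀ (z.1 - z.2) =
        (F z.1 - F z.2) - (F z.1 - F z.2 - fderiv ℝ F z₀ (z.1 - z.2)) := by abel
    calc ‖fderiv ℝ F z₀ (z.1 - z.2)‖ = ‖(F z.1 - F z.2) -
          (F z.1 - F z.2 - fderiv ℝ F z₀ (z.1 - z.2))‖ := by rw [← h5]
      _ ≤ ‖F z.1 - F z.2‖ + ‖F z.1 - F z.2 - fderiv ℝ F z₀ (z.1 - z.2)‖ := norm_sub_le _ _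
      _ ≤ _ := by linarith
  have h6 : (K : ℝ) * (1 / (2 * K) * ‖z.1 - z.2‖) = ‖z.1 - z.2‖ / 2 := by
    field_simp
  have h7 : ‖z.1 - z.2‖ ≤ K * ‖F z.1 - F z.2‖ + ‖z.1 - z.2‖ / 2 := by
    refine h2.trans ((mul_le_mul_of_nonneg_left h4 hK'.le).trans (le_of_eq ?_))
    rw [mul_add, h6]
  linarith

/-- the affine coordinates of two points of `ℙ^L` -/
theorem norm_ratio_le {ι : Type*} [Fintype ι] {x x' : ι → ℂ} {i : ι} {ε : ℝ} (hε : 0 < ε)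
    (hx : x ≠ 0) (hx' : x' ≠ 0) (hi : ε * ‖x‖ ≤ ‖x i‖) (hi' : ε * ‖x'‖ ≤ ‖x' i‖) :
    ‖(x i)⁻¹ • x - (x' i)⁻¹ • x'‖ ≤ (1 / ε + 1 / ε ^ 2) * (‖x - x'‖ / ‖x‖) := by
  have n0 : 0 < ‖x‖ := norm_pos_iff.2 hx
  have n0' : 0 < ‖x'‖ := norm_pos_iff.2 hx'
  have m0 : 0 < ‖x i‖ := lt_of_lt_of_le (by positivity) hi
  have m0' : 0 < ‖x' i‖ := lt_of_lt_of_le (by positivity) hi'
  have e0 : x i ≠ 0 := norm_pos_iff.1 m0
  have e0' : x' i ≠ 0 := norm_pos_iff.1 m0'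
  have h1 : (x i)⁻¹ • x - (x' i)⁻¹ • x' =
      (x i)⁻¹ • (x - x') + ((x' i - x i) / (x i * x' i)) • x' := by
    have h2 : (x' i - x i) / (x i * x' i) = (x i)⁻¹ - (x' i)⁻¹ := by
      field_simp
    rw [h2, smul_sub, sub_smul]
    abel
  have h3 : ‖(x i)⁻¹‖ ≤ 1 / (ε * ‖x‖) := by
    rw [norm_inv, one_div]
    exact inv_anti₀ (by positivity) hi
  have h3' : ‖(x' i)⁻¹‖ ≤ 1 / (ε * ‖x'‖) := by
    rw [norm_inv, one_div]
    exact inv_anti₀ (by positivity) hi'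
  have h4 : ‖x' i - x i‖ ≤ ‖x - x'‖ := by
    rw [norm_sub_rev]
    exact norm_le_pi_norm (x - x') i
  have h5 : ‖((x' i - x i) / (x i * x' i)) • x'‖ ≤
      ‖x - x'‖ * (1 / (ε * ‖x‖)) * (1 / (ε * ‖x'‖)) * ‖x'‖ := by
    rw [norm_smul, div_eq_mul_inv, mul_inv, norm_mul, norm_mul, ← mul_assoc]
    gcongr
  have h6 : ‖(x i)⁻¹ • (x - x')‖ ≤ 1 / (ε * ‖x‖) * ‖x - x'‖ := by
    rw [norm_smul]
    gcongr
  rw [h1]
  refine (norm_add_le _ _).trans ((add_le_add h6 h5).trans (le_of_eq ?_))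
  field_simp

/-- the derivative of affine coordinates -/
theorem fderiv_of_ratio {V : Type*} [NormedAddCommGroup V] [NormedSpace ℝ V] {κ : Type*}
    [Fintype κ] {W : V → κ → ℂ} {k : κ} {z₀ : V} (hW : ContDiffAt ℝ 1 W z₀) (hk : W z₀ k ≠ 0)
    (v : V) (hv : fderiv ℝ (fun z => (W z k)⁻¹ • W z) z₀ v = 0) :
    ∃ a : ℂ, fderiv ℝ W z₀ v = a • W z₀ := by
  have hWk : ContDiffAt ℝ 1 (fun z => (W z k)⁻¹) z₀ := (contDiffAt_pi.1 hW k).inv hk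
  have h1 := (hWk.differentiableAt (by norm_num)).hasFDerivAt
  have h2 := (hW.differentiableAt (by norm_num)).hasFDerivAt
  have h3 : HasFDerivAt (fun z => (W z k)⁻¹ • W z) _ z₀ := h1.smul h2
  rw [h3.fderiv] at hv
  simp only [add_apply, smul_apply,
    ContinuousLinearMap.smulRight_apply] at hv
  set b : ℂ := fderiv ℝ (fun z => (W z k)⁻¹) z₀ v with hb
  refine ⟨-(W z₀ k * b), ?_⟩
  have h4 : (W z₀ k)⁻¹ • fderiv ℝ W z₀ v = -(b • W z₀) := eq_neg_of_add_eq_zero_left hv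
  have h5 := congrArg (fun u => W z₀ k • u) h4
  simp only [smul_inv_smul₀ hk] at h5
  rw [h5, smul_neg, smul_smul, neg_smul]

/-- homogeneous coordinates `X` and coordinates `F` of an immersion -/
theorem ratio_antilip {V E : Type*} [NormedAddCommGroup V] [NormedSpace ℝ V]
    [FiniteDimensional ℝ V] [NormedAddCommGroup E] [NormedSpace ℝ E] {ι : Type*} [Fintype ι]
    {X : V → ι → ℂ} {F : V → E} {z₀ : V} (hX : ContDiffAt ℝ 1 X z₀) (hF : ContDiffAt ℝ 1 F z₀)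
    {i : ι} (hi : X z₀ i ≠ 0)
    (himm : ∀ v, fderiv ℝ F z₀ v = 0 → (∃ a : ℂ, fderiv ℝ X z₀ v = a • X z₀) → v = 0) :
    ∃ C : ℝ, 0 < C ∧ ∀ᶠ z : V × V in 𝓝 (z₀, z₀), ‖z.1 - z.2‖ ≤
      C * (‖(X z.1 i)⁻¹ • X z.1 - (X z.2 i)⁻¹ • X z.2‖ + ‖F z.1 - F z.2‖) := by
  have hXi : ContDiffAt ℝ 1 (fun z => X z i) z₀ := contDiffAt_pi.1 hX i
  have hG : ContDiffAt ℝ 1 (fun z => ((X z i)⁻¹ • X z, F z)) z₀ :=
    ((hXi.inv hi).smul hX).prodMk hF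
  obtain ⟨C, hC, h⟩ := antilip hG (by
    intro v hv
    have h1 : HasFDerivAt (fun z => ((X z i)⁻¹ • X z, F z)) _ z₀ :=
      (((hXi.inv hi).smul hX).differentiableAt (by norm_num)).hasFDerivAt.prodMk
      (hF.differentiableAt (by norm_num)).hasFDerivAt
    rw [h1.fderiv] at hv
    have h2 := Prod.ext_iff.1 hv
    exact himm v h2.2 (fderiv_of_ratio hX hi v h2.1))
  refine ⟨C, hC, ?_⟩
  filter_upwards [h] with z hz
  refine hz.trans (mul_le_mul_of_nonneg_left ?_ hC.le)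
  rw [Prod.norm_def]
  exact max_le (by
    change ‖(X z.1 i)⁻¹ • X z.1 - (X z.2 i)⁻¹ • X z.2‖ ≤ _
    linarith [norm_nonneg (F z.1 - F z.2)]) (by
    change ‖F z.1 - F z.2‖ ≤ _
    linarith [norm_nonneg ((X z.1 i)⁻¹ • X z.1 - (X z.2 i)⁻¹ • X z.2)])

/-- The local estimate: two points with the same value of `F`. -/
theorem metric_local {V E : Type*} [NormedAddCommGroup V] [NormedSpace ℝ V]
    [FiniteDimensional ℝ V] [NormedAddCommGroup E] [NormedSpace ℝ E] {ι : Type*} [Fintype ι]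
    {X : V → ι → ℂ} {F : V → E} {z₀ : V} (hX : ContDiffAt ℝ 1 X z₀) (hF : ContDiffAt ℝ 1 F z₀)
    (hX0 : X z₀ ≠ 0)
    (himm : ∀ v, fderiv ℝ F z₀ v = 0 → (∃ a : ℂ, fderiv ℝ X z₀ v = a • X z₀) → v = 0) :
    ∃ C : ℝ, 0 < C ∧ ∀ᶠ z : V × V in 𝓝 (z₀, z₀), F z.1 = F z.2 → ∀ x x' : ι → ℂ, x ≠ 0 →
      x' ≠ 0 → (∃ a : ℂ, x = a • X z.1) → (∃ a : ℂ, x' = a • X z.2) →
      ‖z.1 - z.2‖ ≤ C * ‖x - x'‖ / ‖x‖ := by
  obtain ⟨i, hi⟩ := Function.ne_iff.1 hX0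
  obtain ⟨C, hC, h⟩ := ratio_antilip hX hF hi himm
  have nX : 0 < ‖X z₀‖ := norm_pos_iff.2 hX0
  have nXi : 0 < ‖X z₀ i‖ := norm_pos_iff.2 hi
  set ε : ℝ := ‖X z₀ i‖ / (2 * ‖X z₀‖) with hε
  have hε0 : 0 < ε := by positivity
  have hcX : ContinuousAt X z₀ := hX.continuousAt
  have hcXi : ContinuousAt (fun z => X z i) z₀ := continuousAt_pi.1 hcX i
  have e1 : ∀ᶠ z in 𝓝 z₀, ε * ‖X z‖ < ‖X z i‖ := by
    have h1 : ε * ‖X z₀‖ < ‖X z₀ i‖ := by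
      rw [hε, div_mul_eq_mul_div, div_lt_iff₀ (by positivity)]
      nlinarith
    exact (continuousAt_const.mul hcX.norm).eventually_lt hcXi.norm h1
  have e3 := e1.prod_nhds e1
  refine ⟨C * (1 / ε + 1 / ε ^ 2), by positivity, ?_⟩
  filter_upwards [h, e3] with z hz h3 hFz x x' hx hx' hxa hxa'
  obtain ⟨a, rfl⟩ := hxa
  obtain ⟨a', rfl⟩ := hxa'
  have ha : a ≠ 0 := fun h0 => hx (by rw [h0, zero_smul])
  have ha' : a' ≠ 0 := fun h0 => hx' (by rw [h0, zero_smul])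
  have k2 : ∀ (a : ℂ) (u : ι → ℂ), a ≠ 0 → (u i)⁻¹ • u = ((a • u) i)⁻¹ • (a • u) := by
    intro a u ha
    rw [Pi.smul_apply, smul_eq_mul, smul_smul, mul_inv]
    congr 1
    field_simp
  have k3 : ∀ (a : ℂ) (u : ι → ℂ), ε * ‖u‖ < ‖u i‖ → ε * ‖a • u‖ ≤ ‖(a • u) i‖ := by
    intro a u hu
    rw [norm_smul, Pi.smul_apply, norm_smul]
    have := mul_le_mul_of_nonneg_left hu.le (norm_nonneg a)
    linarith
  have k4 := norm_ratio_le hε0 hx hx' (k3 a _ h3.1) (k3 a' _ h3.2)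
  rw [← k2 a _ ha, ← k2 a' _ ha'] at k4
  rw [hFz, sub_self, norm_zero, add_zero] at hz
  refine hz.trans ((mul_le_mul_of_nonneg_left k4 hC.le).trans (le_of_eq ?_))
  ring

/-- two different points of `ℙ^L` have disjoint neighbourhoods -/
theorem sep {V V' : Type*} [TopologicalSpace V] [TopologicalSpace V'] {ι : Type*} [Fintype ι]
    {X : V → ι → ℂ} {X' : V' → ι → ℂ} {z₀ : V} {z₀' : V'} (hX : ContinuousAt X z₀)
    (hX' : ContinuousAt X' z₀') (h0 : X z₀ ≠ 0)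
    (hne : ¬ ∃ a : ℂ, X' z₀' = a • X z₀) :
    ∃ ε : ℝ, 0 < ε ∧ ∀ᶠ z : V × V' in 𝓝 (z₀, z₀'), ∀ x x' : ι → ℂ,
      (∃ a : ℂ, x = a • X z.1) → (∃ a : ℂ, x' = a • X' z.2) → ε * ‖x‖ ≤ ‖x - x'‖ := by
  let L : (ℂ × ℂ) →ₗ[ℂ] (ι → ℂ) :=
    (LinearMap.fst ℂ ℂ ℂ).smulRight (X z₀) - (LinearMap.snd ℂ ℂ ℂ).smulRight (X' z₀')
  have hL : ∀ p : ℂ × ℂ, L p = p.1 • X z₀ - p.2 • X' z₀' := fun p => rfl
  have hker : LinearMap.ker L = ⊥ := by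
    refine LinearMap.ker_eq_bot'.2 fun p hp => ?_
    rw [hL, sub_eq_zero] at hp
    have h2 : p.2 = 0 := by
      by_contra h2
      apply hne
      refine ⟨p.2⁻¹ * p.1, ?_⟩
      rw [mul_smul, hp, inv_smul_smul₀ h2]
    rw [h2, zero_smul] at hp
    have h1 : p.1 = 0 := (smul_eq_zero.1 hp).resolve_right h0
    exact Prod.ext h1 h2
  obtain ⟨K, hK, hA⟩ := L.exists_antilipschitzWith hker
  have hK' : (0 : ℝ) < K := hK
  have hp : ∀ p : ℂ × ℂ, ‖p‖ ≤ K * ‖L p‖ := by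
    intro p
    have h3 := hA.le_mul_dist p 0
    simpa [dist_eq_norm] using h3
  have e1 : ∀ᶠ z in 𝓝 z₀, ‖X z - X z₀‖ < 1 / (4 * K) ∧ ‖X z‖ < ‖X z₀‖ + 1 := by
    refine Filter.Eventually.and ?_ (hX.norm.eventually_lt continuousAt_const (by linarith))
    have h1 : ContinuousAt (fun z => ‖X z - X z₀‖) z₀ := (hX.sub continuousAt_const).norm
    exact h1.eventually_lt continuousAt_const (by simp; positivity)
  have e2 : ∀ᶠ z in 𝓝 z₀', ‖X' z - X' z₀'‖ < 1 / (4 * K) := by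
    have h1 : ContinuousAt (fun z => ‖X' z - X' z₀'‖) z₀' := (hX'.sub continuousAt_const).norm
    exact h1.eventually_lt continuousAt_const (by simp; positivity)
  refine ⟨1 / (2 * K * (‖X z₀‖ + 1)), by positivity, ?_⟩
  filter_upwards [e1.prod_nhds e2] with z hz x x' hx hx'
  obtain ⟨⟨z1, z2⟩, z3⟩ := hz
  obtain ⟨a, rfl⟩ := hx
  obtain ⟨b, rfl⟩ := hx'
  set m : ℝ := ‖((a, b) : ℂ × ℂ)‖ with hm
  have ma : ‖a‖ ≤ m := norm_fst_le ((a, b) : ℂ × ℂ)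
  have mb : ‖b‖ ≤ m := norm_snd_le ((a, b) : ℂ × ℂ)
  have m0 : 0 ≤ m := norm_nonneg _
  have h1 : L (a, b) = (a • X z.1 - b • X' z.2) - a • (X z.1 - X z₀) + b • (X' z.2 - X' z₀') := by
    rw [hL, smul_sub, smul_sub]
    abel
  have h2 : ‖L (a, b)‖ ≤ ‖a • X z.1 - b • X' z.2‖ + m * (1 / (4 * K)) + m * (1 / (4 * K)) := by
    rw [h1]
    refine (norm_add_le _ _).trans (add_le_add ((norm_sub_le _ _).trans (add_le_add le_rfl ?_)) ?_)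
    · rw [norm_smul]
      exact mul_le_mul ma z1.le (norm_nonneg _) m0
    · rw [norm_smul]
      exact mul_le_mul mb z3.le (norm_nonneg _) m0
  have h3 := hp (a, b)
  have h4 : (K : ℝ) * (m * (1 / (4 * K))) = m / 4 := by field_simp
  have h5 : m ≤ K * ‖a • X z.1 - b • X' z.2‖ + m / 2 := by
    have h6 := mul_le_mul_of_nonneg_left h2 hK'.le
    have h7 : (K : ℝ) * (‖a • X z.1 - b • X' z.2‖ + m * (1 / (4 * K)) + m * (1 / (4 * K))) =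
        K * ‖a • X z.1 - b • X' z.2‖ + m / 2 := by
      rw [mul_add, mul_add, h4]
      ring
    linarith
  have h8 : m ≤ 2 * K * ‖a • X z.1 - b • X' z.2‖ := by linarith
  have h9 : ‖a • X z.1‖ ≤ m * (‖X z₀‖ + 1) := by
    rw [norm_smul]
    exact mul_le_mul ma z2.le (norm_nonneg _) m0
  have h10 : 0 < ‖X z₀‖ + 1 := by positivity
  rw [div_mul_eq_mul_div, one_mul, div_le_iff₀ (by positivity)]
  nlinarith

/-- not proportional is an open condition -/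
theorem eventually_not_smul {V V' : Type*} [TopologicalSpace V] [TopologicalSpace V'] {ι : Type*}
    [Fintype ι] {X : V → ι → ℂ} {X' : V' → ι → ℂ} {z₀ : V} {z₀' : V'} (hX : ContinuousAt X z₀)
    (hX' : ContinuousAt X' z₀') (h0 : X z₀ ≠ 0) (h0' : X' z₀' ≠ 0)
    (hne : ¬ ∃ a : ℂ, X' z₀' = a • X z₀) :
    ∀ᶠ z : V × V' in 𝓝 (z₀, z₀'), ¬ ∃ a : ℂ, X' z.2 = a • X z.1 := by
  obtain ⟨ε, hε, h⟩ := sep hX hX' h0 hne
  have e1 : ∀ᶠ z in 𝓝 z₀, X z ≠ 0 := hX.eventually_ne h0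
  have e2 : ∀ᶠ z in 𝓝 z₀', X' z ≠ 0 := hX'.eventually_ne h0'
  filter_upwards [h, e1.prod_nhds e2] with z hz h1
  rintro ⟨a, ha⟩
  have h2 := hz (a • X z.1) (X' z.2) ⟨a, rfl⟩ ⟨1, by rw [one_smul]⟩
  rw [ha, sub_self, norm_zero] at h2
  have h3 : 0 < ‖a • X z.1‖ := by
    rw [← ha]
    exact norm_pos_iff.2 h1.2
  nlinarith

end Pool.Agent.KRFAl
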