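import Mathlib

/-!
# Towers of monic forms: definitions (helper52)

`C^m` is `Fin m → ℂ` with the Euclidean norm `en`.
-/

open MvPolynomial

namespace Pool.Agent.KRFAl

/-- the Euclidean norm -/
noncomputable def en {m : ℕ} (x : Fin m → ℂ) : ℝ := √(∑ i, ‖x i‖ ^ 2)

/-- composition of polynomials with the linear map `π` -/
noncomputable def pull {m k : ℕ} (π : (Fin m → ℂ) →ₗ[ℂ] (Fin k → ℂ)) :
    MvPolynomial (Fin k) ℂ →ₐ[ℂ] MvPolynomial (Fin m) ℂ :=
  aeval fun i => ∑ j, C (π (Pi.single j 1) i) * X j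

/-- `x` is a zero of the ideal `J` -/
def Zr {m : ℕ} (J : Ideal (MvPolynomial (Fin m) ℂ)) (x : Fin m → ℂ) : Prop := ∀ p ∈ J, eval x p = 0

/-- `R_k → S/J` is finite and has the going-down property, where `R_k` is the ring of polynomials on
`C^k` and `S` the one on `C^m`; the zero set of `J` is a cone on which `|x| ≤ C |π x|`, and it has at
most `r` points over each point of `C^k`. -/
structure Tow (m k : ℕ) (C : ℝ) (r : ℕ) where
  π : (Fin m → ℂ) →ₗ[ℂ] (Fin k → ℂ)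
  J : Ideal (MvPolynomial (Fin m) ℂ)
  en_le : ∀ x, en (π x) ≤ en x
  bound : ∀ x, Zr J x → en x ≤ C * en (π x)
  cone : ∀ x (c : ℂ), Zr J x → Zr J (c • x)
  count : ∀ y (A : Finset (Fin m → ℂ)), (∀ x ∈ A, π x = y ∧ Zr J x) → A.card ≤ r
  int : ∀ p : MvPolynomial (Fin m) ℂ,
    (((Ideal.Quotient.mk J).comp (pull π : MvPolynomial (Fin k) ℂ →+* MvPolynomial (Fin m) ℂ))).IsIntegralElem
      (Ideal.Quotient.mk J p)
  gd : ∀ (Q : Ideal (MvPolynomial (Fin m) ℂ)) (p : Ideal (MvPolynomial (Fin k) ℂ)), Q.IsPrime →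
    p.IsPrime → J ≤ Q → p ≤ Q.comap (pull π) →
    ∃ q : Ideal (MvPolynomial (Fin m) ℂ), q.IsPrime ∧ J ≤ q ∧ q ≤ Q ∧ q.comap (pull π) = p

/-- the primes of `S` over the zero ideal of `R_k` which contain `J` -/
def Tow.Pr {m k : ℕ} {C : ℝ} {r : ℕ} (T : Tow m k C r) : Set (Ideal (MvPolynomial (Fin m) ℂ)) :=
  {q | q.IsPrime ∧ T.J ≤ q ∧ q.comap (pull T.π) = ⊥}

/-- `x` lies on the zero set of one of these primes which contains the set `G` -/
def Tow.Piece {m k : ℕ} {C : ℝ} {r : ℕ} (T : Tow m k C r) (G : Set (MvPolynomial (Fin m) ℂ))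
    (x : Fin m → ℂ) : Prop := ∃ q ∈ T.Pr, G ⊆ q ∧ Zr q x

/-- unordered `D`-tuples of points of `C^m` which depend polynomially on `s` -/
structure IsSheets {m D : ℕ} (γ : ℂ → Fin D → Fin m → ℂ) : Prop where
  poly : ∀ t : Fin m → ℂ, ∃ P : Polynomial (Polynomial ℂ), P.Monic ∧ P.natDegree = D ∧
    ∀ s, P.map (Polynomial.evalRingHom s) =
      ∏ i, (Polynomial.X - Polynomial.C (∑ j, t j * γ s i j))
  disc : ∃ (t : Fin m → ℂ) (Δ : Polynomial ℂ), Δ ≠ 0 ∧
    ∀ s, Δ.eval s ≠ 0 → Function.Injective fun i => ∑ j, t j * γ s i j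

end Pool.Agent.KRFAl
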