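import Pool.Agent.Work.MP_a2bf38_gt.Al.TowDefs

/-!
# Modules of the algebraic part (statements); see the note of helper52
-/

open MvPolynomial

namespace Pool.Agent.KRFAl

/-! ## `Al/Pull.lean` (helper52) -/

theorem eval_pull {m k : ℕ} (π : (Fin m → ℂ) →ₗ[ℂ] (Fin k → ℂ)) (x : Fin m → ℂ)
    (P : MvPolynomial (Fin k) ℂ) : eval x (pull π P) = eval (π x) P := sorry

theorem pull_comp {m k l : ℕ} (π : (Fin m → ℂ) →ₗ[ℂ] (Fin k → ℂ))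
    (π' : (Fin k → ℂ) →ₗ[ℂ] (Fin l → ℂ)) (P : MvPolynomial (Fin l) ℂ) :
    pull (π' ∘ₗ π) P = pull π (pull π' P) := sorry

theorem pull_id {m : ℕ} (P : MvPolynomial (Fin m) ℂ) : pull LinearMap.id P = P := sorry

/-- a polynomial is at most `K |x|^d`, if it is homogeneous of degree `d` -/
theorem eval_le_en {m d : ℕ} {P : MvPolynomial (Fin m) ℂ} (hP : P.IsHomogeneous d) :
    ∃ K : ℝ, 0 ≤ K ∧ ∀ x, ‖eval x P‖ ≤ K * en x ^ d := sorry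

/-! ## `Al/Growth.lean`: growth implies homogeneous -/

theorem isHomogeneous_of_growth {k N : ℕ} {c : MvPolynomial (Fin k) ℂ} {K : ℝ}
    (h : ∀ y, ‖eval y c‖ ≤ K * en y ^ N) : c.IsHomogeneous N := sorry

/-! ## `Al/Spec.lean`: points over the roots of a minimal polynomial -/

section

variable {m k : ℕ} {C : ℝ} {r : ℕ} (T : Tow m k C r)

/-- lying over -/
theorem Tow.exists_point {q : Ideal (MvPolynomial (Fin m) ℂ)} (hq : q ∈ T.Pr) (y : Fin k → ℂ) :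
    ∃ x, Zr q x ∧ T.π x = y := sorry

/-- The constant term `c` of the minimal polynomial of `h` over `R_k`: it vanishes at `π x` if `x` is
a zero of `q` and of `h`, and its value at `y` is, up to the sign, the product of the values of `h` at
`N` points over `y`. -/
theorem Tow.min_const {q : Ideal (MvPolynomial (Fin m) ℂ)} (hq : q ∈ T.Pr)
    {h : MvPolynomial (Fin m) ℂ} (hh : h ∉ q) : ∃ (N : ℕ) (c : MvPolynomial (Fin k) ℂ),
      N ≤ r ∧ c ≠ 0 ∧ (∀ x, Zr q x → eval x h = 0 → eval (T.π x) c = 0) ∧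
      ∀ y, ∃ x : Fin N → Fin m → ℂ, (∀ i, Zr q (x i) ∧ T.π (x i) = y) ∧
        ‖eval y c‖ = ∏ i, ‖eval (x i) h‖ := sorry

/-! ## `Al/Primes.lean`: the number of primes (uses `Spec`) -/

theorem Tow.card_primes : T.Pr.Finite ∧ T.Pr.ncard ≤ r := sorry

end

/-! ## `Al/Unitary.lean`: a form becomes monic after a unitary change of coordinates -/

theorem exists_unitary (N : ℕ) : ∃ K : ℝ, 1 ≤ K ∧ ∀ (k : ℕ) (F : MvPolynomial (Fin (k + 1)) ℂ),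
    F ≠ 0 → F.IsHomogeneous N → ∃ (U : (Fin (k + 1) → ℂ) ≃ₗ[ℂ] (Fin (k + 1) → ℂ)) (a : ℂ),
      a ≠ 0 ∧ (∀ y, en (U y) = en y) ∧
      (finSuccEquiv ℂ k (a • pull U.symm.toLinearMap F)).Monic ∧
      (finSuccEquiv ℂ k (a • pull U.symm.toLinearMap F)).natDegree = N ∧
      ∀ y, eval y F = 0 → en y ≤ K * en (Fin.tail (U y)) := sorry

/-! ## `Al/OneStep.lean`: the extension `R_k → R_(k+1)/(F)` -/

/-- the projection to the last `k` coordinates -/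
def tailL (k : ℕ) : (Fin (k + 1) → ℂ) →ₗ[ℂ] (Fin k → ℂ) where
  toFun y := Fin.tail y
  map_add' _ _ := rfl
  map_smul' _ _ := rfl

/-- `F` is monic in the first variable: `R_k → R_(k+1)/(F)` as a tower -/
theorem exists_oneStep {k N : ℕ} {K : ℝ} (hK : 1 ≤ K) {F : MvPolynomial (Fin (k + 1)) ℂ}
    (hF : F.IsHomogeneous N) (hN : 1 ≤ N) (U : (Fin (k + 1) → ℂ) ≃ₗ[ℂ] (Fin (k + 1) → ℂ)) {a : ℂ}
    (ha : a ≠ 0) (hU : ∀ y, en (U y) = en y)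
    (hm : (finSuccEquiv ℂ k (a • pull U.symm.toLinearMap F)).Monic)
    (hd : (finSuccEquiv ℂ k (a • pull U.symm.toLinearMap F)).natDegree = N)
    (hb : ∀ y, eval y F = 0 → en y ≤ K * en (Fin.tail (U y))) :
    ∃ T : Tow (k + 1) k K N, T.J = Ideal.span {F} ∧ T.π = tailL k ∘ₗ U.toLinearMap := sorry

/-! ## `Al/Compose.lean`: composition of towers -/

theorem exists_compose {m l k : ℕ} {C C' : ℝ} {r r' : ℕ} (hC : 0 ≤ C) (T : Tow m l C r)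
    (T' : Tow l k C' r') : ∃ T'' : Tow m k (C * C') (r * r'),
      T''.J = T.J ⊔ T'.J.map (pull T.π) ∧ T''.π = T'.π ∘ₗ T.π := sorry

theorem exists_trivial (m : ℕ) : ∃ T : Tow m m 1 1, T.J = ⊥ ∧ T.π = LinearMap.id := sorry

/-! ## `Al/Towers.lean` (helper52): the towers of a cone -/

theorem exists_towers (m d : ℕ) : ∃ (C : ℝ) (r : ℕ), 1 ≤ C ∧
    ∀ G : Set (MvPolynomial (Fin m) ℂ), (∀ g ∈ G, g.IsHomogeneous d) →
    ∃ T : ∀ k, k ≤ m → Tow m k C r, ∀ x, x ≠ 0 → (∀ g ∈ G, eval x g = 0) →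
      ∃ (k : ℕ) (hk : k + 1 ≤ m), (T (k + 1) hk).Piece G x := sorry

/-! ## `Al/Line.lean`: the points over a line -/

/-- going down to a prime over the ideal of the line -/
theorem Tow.exists_line {m k : ℕ} {C : ℝ} {r : ℕ} (T : Tow m k C r)
    {q : Ideal (MvPolynomial (Fin m) ℂ)} (hq : q ∈ T.Pr) {x : Fin m → ℂ} (hx : Zr q x)
    {u v : Fin k → ℂ} (hv : v ≠ 0) {s₁ : ℂ} (hs : T.π x = u + s₁ • v) :
    ∃ q₁ : Ideal (MvPolynomial (Fin m) ℂ), q₁.IsPrime ∧ q ≤ q₁ ∧ Zr q₁ x ∧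
      q₁.comap (pull T.π) = RingHom.ker (aeval (R := ℂ) fun i => Polynomial.C (u i) +
        Polynomial.X * Polynomial.C (v i) :
          MvPolynomial (Fin k) ℂ →ₐ[ℂ] Polynomial ℂ) := sorry

/-- the tuple of the points over the points of the line -/
theorem exists_sheets {m k : ℕ} {π : (Fin m → ℂ) →ₗ[ℂ] (Fin k → ℂ)}
    {q₁ : Ideal (MvPolynomial (Fin m) ℂ)} (hq₁ : q₁.IsPrime) {u v : Fin k → ℂ} (hv : v ≠ 0)
    (hker : q₁.comap (pull π) = RingHom.ker (aeval (R := ℂ) fun i => Polynomial.C (u i) +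
        Polynomial.X * Polynomial.C (v i) :
          MvPolynomial (Fin k) ℂ →ₐ[ℂ] Polynomial ℂ))
    (hint : ∀ p : MvPolynomial (Fin m) ℂ, (((Ideal.Quotient.mk q₁).comp
      (pull π : MvPolynomial (Fin k) ℂ →+* MvPolynomial (Fin m) ℂ))).IsIntegralElem
        (Ideal.Quotient.mk q₁ p)) :
    ∃ (D : ℕ) (γ : ℂ → Fin D → Fin m → ℂ), IsSheets γ ∧ (∀ s i, Zr q₁ (γ s i)) ∧
      (∀ s i, π (γ s i) = u + s • v) ∧
      ∀ s x, Zr q₁ x → π x = u + s • v → ∃ i, γ s i = x := sorry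

/-- from the two previous ones -/
theorem Tow.line_lift {m k : ℕ} {C : ℝ} {r : ℕ} (T : Tow m k C r)
    {q : Ideal (MvPolynomial (Fin m) ℂ)} (hq : q ∈ T.Pr) {x : Fin m → ℂ} (hx : Zr q x)
    {u v : Fin k → ℂ} (hv : v ≠ 0) {s₁ : ℂ} (hs : T.π x = u + s₁ • v) :
    ∃ (D : ℕ) (γ : ℂ → Fin D → Fin m → ℂ), 1 ≤ D ∧ D ≤ r ∧ IsSheets γ ∧
      (∀ s i, Zr q (γ s i)) ∧ (∀ s i, T.π (γ s i) = u + s • v) ∧ ∃ i, γ s₁ i = x := sorry

/-! ## `Al/Match.lean`, `Al/Sheets.lean`: continuity and sections of `IsSheets` -/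

theorem IsSheets.holder (m D : ℕ) (C : ℝ) : ∃ K α : ℝ, 0 ≤ K ∧ 0 < α ∧
    ∀ γ : ℂ → Fin D → Fin m → ℂ, IsSheets γ → (∀ s i, ‖s‖ ≤ 4 → ‖γ s i‖ ≤ C) →
    ∀ s s', ‖s‖ ≤ 3 → ‖s'‖ ≤ 3 → ∃ σ : Equiv.Perm (Fin D), ∀ i,
      ‖γ s' (σ i) - γ s i‖ ≤ K * ‖s' - s‖ ^ α := sorry

theorem IsSheets.cont {m D : ℕ} {γ : ℂ → Fin D → Fin m → ℂ} (h : IsSheets γ) (s : ℂ) {ε : ℝ}
    (hε : 0 < ε) : ∀ᶠ s' in nhds s, ∃ σ : Equiv.Perm (Fin D), ∀ i,
      ‖γ s' (σ i) - γ s i‖ ≤ ε := sorry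

theorem IsSheets.sect {m D : ℕ} {γ : ℂ → Fin D → Fin m → ℂ} (h : IsSheets γ) :
    ∃ E : Set ℂ, E.Finite ∧ ∀ s ∉ E, ∃ (r : ℝ) (g : Fin D → ℂ → Fin m → ℂ), 0 < r ∧
      (∀ i, DifferentiableOn ℂ (g i) (Metric.ball s r)) ∧ (∀ i, g i s = γ s i) ∧
      ∀ s' ∈ Metric.ball s r, ∃ σ : Equiv.Perm (Fin D), ∀ i, γ s' (σ i) = g i s' := sorry

end Pool.Agent.KRFAl
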